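import Pool.Agent.H429R4.GC.Iso

/-!
# The circuit for graph isomorphism that tries all bijections
-/

namespace Pool.Agent.W892

open Finset
open Pool.Agent.H429R4.Sem (Circuit)
open Pool.Agent.H429R4.GC

variable {X B D L : Type}

/-- If every transform of the wiring of a gate is the wiring of a gate, then there are at most as
many transforms as gates. -/
theorem numWirings_le_size' (enc : X → B → Bool) (C : Circuit B D L) (A : Set (X → X))
    (h : ∀ g, ∀ f ∈ A, ∃ g', view enc C g f = view enc C g' id) : numWirings enc C A ≤ C.size := by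
  let _ := C.finite
  have h1 : wirings enc C A ⊆ Set.range fun g => view enc C g id := by
    rintro _ ⟨g, f, hf, rfl⟩
    obtain ⟨g', hg'⟩ := h g f hf
    exact ⟨g', hg'.symm⟩
  have h2 : Nat.card (Set.range fun g => view enc C g id) ≤ Nat.card C.Gate := by
    have := Set.finite_range fun g => view enc C g id
    exact Nat.card_le_card_of_surjective (Set.rangeFactorization fun g => view enc C g id)
      Set.rangeFactorization_surjective
  refine (Nat.card_mono (Set.finite_range _) h1).trans (h2.trans ?_)
  rw [Nat.card_eq_fintype_card]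
  exact le_rfl

variable (W : Type) [Fintype W] [DecidableEq W]

open Classical in
/-- The circuit that tries all bijections. -/
noncomputable def bruteIso : Circuit ((W × W) ⊕ (W × W)) Bool (Option ((W × W) × Bool)) where
  Gate := ((W × W) ⊕ (W × W)) ⊕ (Equiv.Perm W ⊕ Unit)
  finite := inferInstance
  rank := Sum.elim (fun _ => 0) (Sum.elim (fun _ => 1) fun _ => 2)
  read := Sum.elim some fun _ => none
  wires := Sum.elim (fun _ => 0) (Sum.elim
    (fun σ => (univ : Finset (W × W)).val.map (fun e => (some (e, false), Sum.inl (Sum.inl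
      (σ.symm e.1, σ.symm e.2)))) +
      (univ : Finset (W × W)).val.map (fun e => (some (e, true), Sum.inl (Sum.inr e))))
    fun _ => (univ : Finset (Equiv.Perm W)).val.map fun σ => (none, Sum.inr (Sum.inl σ)))
  rank_lt := by
    rintro (e | σ | u) p hp
    · simp at hp
    · simp only [Sum.elim_inr, Sum.elim_inl, Multiset.mem_add, Multiset.mem_map] at hp
      obtain ⟨e, -, rfl⟩ | ⟨e, -, rfl⟩ := hp
      · simp
      · simp
    · simp only [Sum.elim_inr, Multiset.mem_map] at hp
      obtain ⟨S, -, rfl⟩ := hp
      simp
  fn := Sum.elim (fun _ o _ => o.getD false) (Sum.elim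
    (fun _ _ m => decide (∀ e b b', (some (e, false), b) ∈ m → (some (e, true), b') ∈ m → b = b'))
    fun _ _ m => decide (∃ p ∈ m, p.2 = true))
  out := Sum.inr (Sum.inr ())

/-- The gate that reads a bit. -/
noncomputable def gBit (e : (W × W) ⊕ (W × W)) : (bruteIso W).Gate := Sum.inl e

/-- The gate of a bijection. -/
noncomputable def gPerm (σ : Equiv.Perm W) : (bruteIso W).Gate := Sum.inr (Sum.inl σ)

/-- The output gate. -/
noncomputable def gLast : (bruteIso W).Gate := Sum.inr (Sum.inr ())

variable {W}

theorem value_bit (x : SimpleGraph W × SimpleGraph W) (e : (W × W) ⊕ (W × W)) :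
    value adjPair (bruteIso W) (gBit W e) x = adjPair x e := by
  rw [value_eq]
  rfl

theorem wires_perm (σ : Equiv.Perm W) : (bruteIso W).wires (gPerm W σ) =
    (univ : Finset (W × W)).val.map (fun e => (some (e, false),
      gBit W (Sum.inl (σ.symm e.1, σ.symm e.2)))) +
      (univ : Finset (W × W)).val.map (fun e => (some (e, true), gBit W (Sum.inr e))) := rfl

theorem wires_last : (bruteIso W).wires (gLast W) =
    (univ : Finset (Equiv.Perm W)).val.map fun σ => (none, gPerm W σ) := rfl

theorem value_perm (x : SimpleGraph W × SimpleGraph W) (σ : Equiv.Perm W) :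
    value adjPair (bruteIso W) (gPerm W σ) x = true ↔
      ∀ u v, x.1.Adj (σ.symm u) (σ.symm v) ↔ x.2.Adj u v := by
  classical
  rw [value_eq, wires_perm]
  change decide _ = true ↔ _
  rw [decide_eq_true_eq, Multiset.map_add, Multiset.map_map, Multiset.map_map]
  simp only [Multiset.mem_add, Multiset.mem_map, Function.comp_apply, value_bit, mem_val, mem_univ,
    true_and, Prod.mk.injEq, Option.some.injEq]
  constructor
  · intro h u v
    have h1 := h (u, v) (adjPair x (Sum.inl (σ.symm u, σ.symm v))) (adjPair x (Sum.inr (u, v)))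
      (Or.inl ⟨(u, v), ⟨rfl, trivial⟩, rfl⟩) (Or.inr ⟨(u, v), ⟨rfl, trivial⟩, rfl⟩)
    have h2 : (adj x.1 (σ.symm u, σ.symm v) = true) ↔ (adj x.2 (u, v) = true) := by
      change (adj x.1 (σ.symm u, σ.symm v)) = (adj x.2 (u, v)) at h1
      rw [h1]
    unfold adj at h2
    rw [decide_eq_true_eq, decide_eq_true_eq] at h2
    exact h2
  · intro h e b b' hb hb'
    obtain ⟨e1, ⟨rfl, -⟩, rfl⟩ | ⟨e1, ⟨-, h3⟩, -⟩ := hb
    · obtain ⟨e2, ⟨-, h3⟩, -⟩ | ⟨e2, ⟨rfl, -⟩, rfl⟩ := hb'
      · exact absurd h3 (by decide)
      · change adj x.1 _ = adj x.2 _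
        unfold adj
        rw [decide_eq_decide]
        exact h e2.1 e2.2
    · exact absurd h3 (by decide)

theorem bruteIso_output (x : SimpleGraph W × SimpleGraph W) :
    (bruteIso W).output (adjPair x) = true ↔ Nonempty (x.1 ≃g x.2) := by
  classical
  change value adjPair (bruteIso W) (gLast W) x = true ↔ _
  rw [value_eq, wires_last]
  change decide _ = true ↔ _
  rw [decide_eq_true_eq, Multiset.map_map]
  simp only [Multiset.mem_map, Function.comp_apply, mem_val, mem_univ, true_and]
  constructor
  · rintro ⟨p, ⟨σ, rfl⟩, h⟩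
    have h1 := (value_perm x σ).1 h
    exact ⟨⟨σ, fun {a b} => by
      have := h1 (σ a) (σ b)
      rw [Equiv.symm_apply_apply, Equiv.symm_apply_apply] at this
      exact this.symm⟩⟩
  · rintro ⟨φ⟩
    refine ⟨_, ⟨φ.toEquiv, rfl⟩, (value_perm x φ.toEquiv).2 fun u v => ?_⟩
    have h1 := φ.map_adj_iff (v := φ.toEquiv.symm u) (w := φ.toEquiv.symm v)
    rw [← h1]
    have e1 : ∀ a, φ (φ.toEquiv.symm a) = a := fun a => φ.toEquiv.apply_symm_apply a
    rw [e1, e1]

theorem numWirings_bruteIso :
    numWirings adjPair (bruteIso W) (firstRelabelings W) ≤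
      2 * Fintype.card W ^ 2 + (Fintype.card W).factorial + 1 := by
  classical
  refine (numWirings_le_size' adjPair (bruteIso W) (firstRelabelings W) ?_).trans (le_of_eq ?_)
  · rintro g f ⟨τ, rfl⟩
    have hbit : ∀ (x : SimpleGraph W × SimpleGraph W) (a b : W),
        adjPair (x.1.comap τ, x.2) (Sum.inl (a, b)) = adjPair x (Sum.inl (τ a, τ b)) := by
      intro x a b
      change adj _ _ = adj _ _
      unfold adj
      rw [decide_eq_decide]
      rfl
    have hperm : ∀ (σ : Equiv.Perm W) (x : SimpleGraph W × SimpleGraph W),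
        value adjPair (bruteIso W) (gPerm W σ) (x.1.comap τ, x.2) =
          value adjPair (bruteIso W) (gPerm W (τ.symm.trans σ)) x := by
      intro σ x
      rw [Bool.eq_iff_iff, value_perm, value_perm]
      exact Iff.rfl
    rcases g with e | σ | u
    · rcases e with e | e
      · refine ⟨gBit W (Sum.inl (τ e.1, τ e.2)), ?_⟩
        change (some (fun x : SimpleGraph W × SimpleGraph W =>
            adjPair (x.1.comap τ, x.2) (Sum.inl e)), Multiset.map _ 0) =
          (some (fun x : SimpleGraph W × SimpleGraph W =>
            adjPair x (Sum.inl (τ e.1, τ e.2))), Multiset.map _ 0)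
        rw [Multiset.map_zero, Multiset.map_zero]
        exact Prod.ext (congrArg some (funext fun x => hbit x e.1 e.2)) rfl
      · refine ⟨gBit W (Sum.inr e), ?_⟩
        rfl
    · refine ⟨gPerm W (τ.symm.trans σ), ?_⟩
      have hw := wires_perm σ
      have hw' := wires_perm (τ.symm.trans σ)
      unfold view
      change (_, Multiset.map _ ((bruteIso W).wires (gPerm W σ))) = _
      rw [hw, hw']
      refine Prod.ext rfl ?_
      change Multiset.map _ _ = Multiset.map _ _
      rw [Multiset.map_add, Multiset.map_add, Multiset.map_map, Multiset.map_map,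
        Multiset.map_map, Multiset.map_map]
      refine congrArg₂ _ (Multiset.map_congr rfl fun e _ => ?_)
        (Multiset.map_congr rfl fun e _ => ?_)
      · refine Prod.ext rfl ?_
        funext x
        change value adjPair (bruteIso W) (gBit W _) _ = value adjPair (bruteIso W) (gBit W _) _
        rw [value_bit, value_bit]
        exact hbit x _ _
      · refine Prod.ext rfl ?_
        funext x
        change value adjPair (bruteIso W) (gBit W _) _ = value adjPair (bruteIso W) (gBit W _) _
        rw [value_bit, value_bit]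
        rfl
    · refine ⟨gLast W, ?_⟩
      have hw := wires_last (W := W)
      unfold view
      change (_, Multiset.map _ ((bruteIso W).wires (gLast W))) = _
      rw [hw]
      refine Prod.ext rfl ?_
      change Multiset.map _ _ = Multiset.map _ _
      rw [Multiset.map_map, Multiset.map_map]
      let ρ : Equiv.Perm W ≃ Equiv.Perm W :=
        ⟨fun σ => τ.symm.trans σ, fun σ => τ.trans σ, fun σ => by ext a; simp,
          fun σ => by ext a; simp⟩
      conv_rhs => rw [← Finset.map_univ_equiv ρ]
      rw [Finset.map_val, Multiset.map_map]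
      refine Multiset.map_congr rfl fun σ _ => ?_
      refine Prod.ext rfl ?_
      funext x
      exact hperm σ x
  · change Fintype.card (((W × W) ⊕ (W × W)) ⊕ (Equiv.Perm W ⊕ Unit)) = _
    rw [Fintype.card_sum, Fintype.card_sum, Fintype.card_sum, Fintype.card_prod,
      Fintype.card_perm, Fintype.card_unit]
    ring

end Pool.Agent.W892
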